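import Pool.Agent.MP_82452b_an.H71.InnerC
import Pool.Agent.MP_82452b_an.H12.LemmaC

namespace Pool.Agent.MP_82452b_an.H8

open Filter Topology Pool.Agent.MP_755d6b_an.H98
open scoped InnerProductSpace

variable {G : Type} [Group G] {S : L2 G →L[ℂ] L2 G}

/-- MODULE L: local innerness. -/
theorem RT.innerOn (h : RT S) {Γ V : Subgroup G} {κ : G →* G} (hκ : Retr κ Γ) (hinv : Inv S Γ)
    (hicc : Icc Γ) (hgen : Γ ≤ Subgroup.closure {g | g ∈ Γ ∧ g ^ 3 = 1})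
    (hVinf : (V : Set G).Infinite) (hVcomm : ∀ m ∈ V, ∀ m' ∈ V, m * m' = m' * m)
    (hnorm : ∀ g ∈ Γ, ∀ m ∈ V, g * m * g⁻¹ ∈ V)
    (hfc : ∀ e : ℕ, e = 1 ∨ e = 2 → ∀ k, {q | ∃ m ∈ V, (m ^ e)⁻¹ * k * m ^ e = q}.Finite → κ k = 1)
    (hnwm : ∃ (z : G) (F : Finset G) (ε : ℝ), 0 < ε ∧ ∀ m ∈ V, ∃ a ∈ F, ∃ b ∈ F, ∃ e : ℕ, e < 3 ∧
      ε ≤ ‖S (dl (m * z)) (a * m ^ e * b)‖) :
    InnerOn S Γ :=
  H71.innerOn_of (fun π h1 h2 h3 ξ η _ hδ H => lemmaC π h1 h2 h3 ξ η hδ H) h hκ hinv hicc hgen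
    hVinf hVcomm hnorm hfc hnwm

end Pool.Agent.MP_82452b_an.H8
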