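import Pool.Agent.MP_82452b_an.H8.RT

/-!
Module: Totally bounded orbits in `ℓ²(G)`
-/

namespace Pool.Agent.MP_82452b_an.H71

open Filter Topology Pool.Agent.MP_755d6b_an.H98 Pool.Agent.MP_82452b_an.H8
open scoped InnerProductSpace

section TB

variable {Λ E E' E'' : Type*} [PseudoMetricSpace E] [PseudoMetricSpace E'] [PseudoMetricSpace E'']

theorem tb_disc {f : Λ → E} (hf : TotallyBounded (Set.range f)) {ε : ℝ} (hε : 0 < ε) :
    ∃ F : Λ → E, (Set.range F).Finite ∧ ∀ m, dist (f m) (F m) < ε := by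
  obtain ⟨t, ht, hc⟩ := Metric.totallyBounded_iff.1 hf ε hε
  have : ∀ m, ∃ y ∈ t, dist (f m) y < ε := fun m => by
    simpa using hc (Set.mem_range_self m)
  choose F hF hF' using this
  exact ⟨F, ht.subset (by rintro _ ⟨m, rfl⟩; exact hF m), hF'⟩

theorem tb_pair {f : Λ → E} {f' : Λ → E'} {g : Λ → E''} (hf : TotallyBounded (Set.range f))
    (hf' : TotallyBounded (Set.range f')) {C : ℝ} (hC : 0 ≤ C)
    (h : ∀ m m', dist (g m) (g m') ≤ C * (dist (f m) (f m') + dist (f' m) (f' m'))) :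
    TotallyBounded (Set.range g) := by
  classical
  refine Metric.totallyBounded_iff.2 fun ε hε => ?_
  have hr : 0 < ε / (4 * (C + 1)) := by positivity
  obtain ⟨F, hF, hF'⟩ := tb_disc hf hr
  obtain ⟨K, hK, hK'⟩ := tb_disc hf' hr
  let P : Λ → E × E' := fun m => (F m, K m)
  have hP : (Set.range P).Finite :=
    (hF.prod hK).subset (by rintro _ ⟨m, rfl⟩; exact ⟨⟨m, rfl⟩, ⟨m, rfl⟩⟩)
  have : Finite (Set.range P) := hP
  refine ⟨Set.range fun p : Set.range P => g p.2.choose, Set.finite_range _, ?_⟩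
  rintro _ ⟨m, rfl⟩
  let p : Set.range P := ⟨P m, m, rfl⟩
  have hp : P p.2.choose = P m := p.2.choose_spec
  refine Set.mem_biUnion (Set.mem_range_self p) ?_
  rw [Metric.mem_ball]
  set m' := p.2.choose
  have h1 : F m' = F m := congrArg Prod.fst hp
  have h2 : K m' = K m := congrArg Prod.snd hp
  have h3 := dist_triangle_right (f m) (f m') (F m)
  have h4 := dist_triangle_right (f' m) (f' m') (K m)
  have h5 := hF' m
  have h6 := hF' m'
  have h7 := hK' m
  have h8 := hK' m'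
  rw [h1] at h6
  rw [h2] at h8
  have h9 : dist (f m) (f m') + dist (f' m) (f' m') < 4 * (ε / (4 * (C + 1))) := by linarith
  calc dist (g m) (g m') ≤ C * (dist (f m) (f m') + dist (f' m) (f' m')) := h m m'
    _ ≤ (C + 1) * (dist (f m) (f m') + dist (f' m) (f' m')) := by
        gcongr; linarith
    _ < (C + 1) * (4 * (ε / (4 * (C + 1)))) := by gcongr
    _ = ε := by field_simp

theorem tb_comp {Λ' : Type*} {f : Λ → E} (hf : TotallyBounded (Set.range f)) {T : E → E'}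
    (hT : UniformContinuous T) (σ : Λ' → Λ) {g : Λ' → E'} (h : ∀ m, g m = T (f (σ m))) :
    TotallyBounded (Set.range g) :=
  (hf.image hT).subset (by rintro _ ⟨m, rfl⟩; exact ⟨_, ⟨σ m, rfl⟩, (h m).symm⟩)

end TB

variable {G : Type}

theorem norm_apply_le (ξ : L2 G) (q : G) : ‖ξ q‖ ≤ ‖ξ‖ := by
  rw [← inner_dl]
  refine (norm_inner_le_norm _ _).trans ?_
  rw [norm_dl, one_mul]

theorem sub_apply_L2 (ξ η : L2 G) (q : G) : (ξ - η) q = ξ q - η q := rfl

theorem tb_finite {Λ : Type*} {f : Λ → L2 G} (hf : TotallyBounded (Set.range f)) (p : Λ → G)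
    {r : ℝ} (hr : 0 < r) (h : ∀ m, r ≤ ‖f m (p m)‖) : (Set.range p).Finite := by
  obtain ⟨F, hF, hF'⟩ := tb_disc hf (half_pos hr)
  refine (hF.biUnion fun ξ _ => finite_le_norm ξ (half_pos hr)).subset ?_
  rintro _ ⟨m, rfl⟩
  refine Set.mem_biUnion (Set.mem_range_self m) ?_
  have h1 := hF' m
  rw [dist_eq_norm] at h1
  have h2 := norm_apply_le (f m - F m) (p m)
  rw [sub_apply_L2] at h2
  have h3 := norm_sub_norm_le (f m (p m)) (F m (p m))
  have h4 := h m
  show r / 2 ≤ ‖F m (p m)‖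
  linarith

theorem supp_iff_ind {ξ : L2 G} {D : Set G} : Supp ξ D ↔ ind D ξ = ξ := by
  constructor
  · intro h
    refine L2.ext (funext fun q => ?_)
    rw [ind_apply]
    split_ifs with hq
    · rfl
    · by_contra h0
      exact hq (h q fun h1 => h0 h1.symm)
  · intro h q hq
    rw [← h, ind_apply] at hq
    by_contra h0
    exact hq (if_neg h0)

theorem ind_eq_zero {ξ : L2 G} {D : Set G} (h : ∀ q ∈ D, ξ q = 0) : ind D ξ = 0 :=
  L2.ext (funext fun q => by
    rw [ind_apply]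
    split_ifs with hq
    · exact h q hq
    · rfl)

theorem ind_dl_mem {D : Set G} {q : G} (hq : q ∈ D) : ind D (dl q) = dl q :=
  supp_iff_ind.1 fun p hp => by
    rw [dl_apply] at hp
    split_ifs at hp with h
    · exact h ▸ hq
    · exact absurd rfl hp

theorem ind_dl_notMem {D : Set G} {q : G} (hq : q ∉ D) : ind D (dl q) = 0 :=
  ind_eq_zero fun p hp => by
    rw [dl_apply, if_neg]
    rintro rfl
    exact hq hp

variable [Group G]

theorem rho_hat {x : L2 G →L[ℂ] L2 G} (hx : x ∈ LG G) (g : G) :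
    rho g (x (dl 1)) = (x * lam g⁻¹) (dl 1) := by
  rw [← mul_apply_eq_comp, mem_LG.1 hx g]
  simp only [mul_apply_eq_comp, rho_dl, lam_dl, one_mul, mul_one]

theorem apply_dl {x : L2 G →L[ℂ] L2 G} (hx : x ∈ LG G) (g p : G) :
    x (dl g) p = x (dl 1) (p * g⁻¹) := by
  rw [← rho_apply, rho_hat hx, mul_apply_eq_comp, lam_dl, inv_inv, mul_one]

theorem tb_star_mul {Λ : Type*} {a b : Λ → L2 G →L[ℂ] L2 G} (ha : ∀ m, a m ∈ LG G)
    (hb : ∀ m, b m ∈ LG G) {C : ℝ} (hC : 0 ≤ C) (ha' : ∀ m, ‖a m‖ ≤ C) (hb' : ∀ m, ‖b m‖ ≤ C)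
    (ta : TotallyBounded (Set.range fun m => a m (dl 1)))
    (tb : TotallyBounded (Set.range fun m => b m (dl 1))) :
    TotallyBounded (Set.range fun m => (star (a m) * b m) (dl 1)) := by
  refine tb_pair ta tb hC fun m m' => ?_
  simp only [dist_eq_norm]
  have h1 : (star (a m) * b m) (dl 1) - (star (a m') * b m') (dl 1) =
      (star (a m - a m')) (b m (dl 1)) + star (a m') (b m (dl 1) - b m' (dl 1)) := by
    simp only [star_sub, mul_apply_eq_comp, sub_apply, map_sub]; abel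
  have h2 := isTV_LG.norm_mul_right (star_mem (sub_mem (ha m) (ha m'))) (hb m)
  rw [isTV_LG.norm_star (sub_mem (ha m) (ha m')), sub_apply] at h2
  have h3 := (star (a m')).le_opNorm (b m (dl 1) - b m' (dl 1))
  rw [norm_star] at h3
  rw [h1, mul_add]
  refine (norm_add_le _ _).trans (add_le_add (h2.trans ?_) (h3.trans ?_))
  · exact mul_le_mul_of_nonneg_right (hb' m) (norm_nonneg _)
  · exact mul_le_mul_of_nonneg_right (ha' m') (norm_nonneg _)

theorem tb_cj_finite {Λ : Type*} {φ : Λ → G} {ζ : L2 G}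
    (h : TotallyBounded (Set.range fun m => cj (φ m) ζ)) {q : G} (hq : ζ q ≠ 0) :
    (Set.range fun m => φ m * q * (φ m)⁻¹).Finite := by
  refine tb_finite h _ (norm_pos_iff.2 hq) fun m => le_of_eq ?_
  rw [cj_apply]
  congr 2
  group

/-- Operators commuting with the projection onto `ℓ²(Γ)`. -/
def InN (Γ : Subgroup G) (x : L2 G →L[ℂ] L2 G) : Prop := ind (Γ : Set G) * x = x * ind (Γ : Set G)

theorem InN.mul {Γ : Subgroup G} {x y : L2 G →L[ℂ] L2 G} (hx : InN Γ x) (hy : InN Γ y) :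
    InN Γ (x * y) := by
  unfold InN at *
  rw [← mul_assoc, hx, mul_assoc, hy, mul_assoc]

theorem InN.star {Γ : Subgroup G} {x : L2 G →L[ℂ] L2 G} (hx : InN Γ x) : InN Γ (star x) := by
  unfold InN at *
  have := congrArg Star.star hx
  rw [star_mul, star_mul, star_ind] at this
  exact this.symm

theorem InN.smul {Γ : Subgroup G} {x : L2 G →L[ℂ] L2 G} (hx : InN Γ x) (c : ℂ) :
    InN Γ (c • x) := by
  unfold InN at *
  rw [mul_smul_comm, smul_mul_assoc, hx]

theorem InN.supp {Γ : Subgroup G} {x : L2 G →L[ℂ] L2 G} (hx : InN Γ x) : Supp (x (dl 1)) Γ := by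
  rw [supp_iff_ind, ← mul_apply_eq_comp, hx, mul_apply_eq_comp, ind_dl_mem (one_mem Γ)]

theorem inN_of_supp {Γ : Subgroup G} {x : L2 G →L[ℂ] L2 G} (hx : x ∈ LG G)
    (h : Supp (x (dl 1)) Γ) : InN Γ x := by
  refine op_ext_dl fun g => ?_
  rw [mul_apply_eq_comp, mul_apply_eq_comp]
  by_cases hg : g ∈ Γ
  · rw [ind_dl_mem hg]
    refine supp_iff_ind.1 fun p hp => ?_
    rw [apply_dl hx] at hp
    exact (Γ.mul_mem_cancel_right (inv_mem hg)).1 (h _ hp)
  · rw [ind_dl_notMem hg, map_zero]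
    refine ind_eq_zero fun p hp => ?_
    rw [apply_dl hx]
    by_contra h0
    exact hg (inv_mem_iff.1 ((Γ.mul_mem_cancel_left hp).1 (h _ h0)))

theorem inN_lam {Γ : Subgroup G} {g : G} (hg : g ∈ Γ) : InN Γ (lam g) :=
  inN_of_supp (lam_mem g) (by rw [lam_dl, mul_one]; exact supp_iff_ind.2 (ind_dl_mem hg))

variable {S : L2 G →L[ℂ] L2 G}

theorem _root_.Pool.Agent.MP_82452b_an.H8.RT.inN71 (h : RT S) {Γ : Subgroup G} (hinv : Inv S Γ) : InN Γ S := by
  refine op_ext_dl fun g => ?_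
  rw [mul_apply_eq_comp, mul_apply_eq_comp]
  by_cases hg : g ∈ Γ
  · rw [ind_dl_mem hg]
    exact supp_iff_ind.1 (hinv g hg)
  · rw [ind_dl_notMem hg, map_zero]
    refine ind_eq_zero fun p hp => ?_
    by_contra h0
    exact hg (hinv p hp g (h.ne_zero_symm h0))

/-- The unitaries `θ(λ_g)`. -/
noncomputable def uu (S : L2 G →L[ℂ] L2 G) (g : G) : L2 G →L[ℂ] L2 G := S * lam g * S

theorem _root_.Pool.Agent.MP_82452b_an.H8.RT.uu_mem (h : RT S) (g : G) : uu S g ∈ LG G := h.mem _ (lam_mem g)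

theorem _root_.Pool.Agent.MP_82452b_an.H8.RT.uu_mul (h : RT S) (g k : G) : uu S (g * k) = uu S g * uu S k := h.u_mul g k

theorem _root_.Pool.Agent.MP_82452b_an.H8.RT.uu_one (h : RT S) : uu S 1 = 1 := by rw [uu, lam_one, mul_one, h.sq]

theorem _root_.Pool.Agent.MP_82452b_an.H8.RT.uu_dl (h : RT S) (g : G) : uu S g (dl 1) = S (dl g) := h.u_dl g

theorem _root_.Pool.Agent.MP_82452b_an.H8.RT.star_uu (h : RT S) (g : G) : star (uu S g) = uu S g⁻¹ := by
  simp only [uu, star_mul, h.sa, star_lam, mul_assoc]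

theorem _root_.Pool.Agent.MP_82452b_an.H8.RT.uu_inv_mul (h : RT S) (g : G) : uu S g⁻¹ * uu S g = 1 := by
  rw [← h.uu_mul, inv_mul_cancel, h.uu_one]

theorem _root_.Pool.Agent.MP_82452b_an.H8.RT.uu_mul_inv (h : RT S) (g : G) : uu S g * uu S g⁻¹ = 1 := by
  rw [← h.uu_mul, mul_inv_cancel, h.uu_one]

theorem _root_.Pool.Agent.MP_82452b_an.H8.RT.norm_uu_apply (h : RT S) (g : G) (ξ : L2 G) : ‖uu S g ξ‖ = ‖ξ‖ := by
  rw [uu, mul_apply_eq_comp, mul_apply_eq_comp, h.norm_apply, norm_lam, h.norm_apply]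

theorem _root_.Pool.Agent.MP_82452b_an.H8.RT.norm_uu (h : RT S) (g : G) : ‖uu S g‖ ≤ 1 :=
  ContinuousLinearMap.opNorm_le_bound _ zero_le_one fun ξ => by rw [one_mul, h.norm_uu_apply]

theorem _root_.Pool.Agent.MP_82452b_an.H8.RT.inner_uu (h : RT S) (g : G) (ξ η : L2 G) : ⟪uu S g ξ, uu S g η⟫_ℂ = ⟪ξ, η⟫_ℂ := by
  rw [← inner_apply_star, h.star_uu, ← mul_apply_eq_comp, h.uu_inv_mul, one_apply_eq_self]

theorem inner_rho (g : G) (ξ η : L2 G) : ⟪rho g ξ, rho g η⟫_ℂ = ⟪ξ, η⟫_ℂ := by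
  rw [← inner_apply_star, star_rho, ← mul_apply_eq_comp, ← rho_mul, inv_mul_cancel, rho_one,
    one_apply_eq_self]

theorem _root_.Pool.Agent.MP_82452b_an.H8.RT.norm_uu_sandwich (h : RT S) (g k : G) (x : L2 G →L[ℂ] L2 G) :
    ‖uu S g * x * lam k‖ ≤ ‖x‖ := by
  calc ‖uu S g * x * lam k‖ ≤ ‖uu S g‖ * ‖x‖ * ‖lam k‖ :=
        (norm_mul_le _ _).trans (mul_le_mul_of_nonneg_right (norm_mul_le _ _) (norm_nonneg _))
    _ ≤ 1 * ‖x‖ * 1 := by
        gcongr
        · exact h.norm_uu g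
        · exact opNorm_lam_le k
    _ = ‖x‖ := by ring

theorem _root_.Pool.Agent.MP_82452b_an.H8.RT.uu_pi_hat (_h : RT S) {x : L2 G →L[ℂ] L2 G} (hx : x ∈ LG G) (g k : G) :
    (uu S g * rho k) (x (dl 1)) = (uu S g * x * lam k⁻¹) (dl 1) := by
  rw [mul_apply_eq_comp, rho_hat hx]
  simp only [mul_apply_eq_comp]

/-- Two elements with totally bounded twisted orbits give a totally bounded conjugation orbit. -/
theorem _root_.Pool.Agent.MP_82452b_an.H8.RT.tb_cj71 (h : RT S) {Λ : Type*} (α β : Λ → G) {x y : L2 G →L[ℂ] L2 G} (hx : x ∈ LG G)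
    (hy : y ∈ LG G)
    (tx : TotallyBounded (Set.range fun m => (uu S (α m) * rho (β m)) (x (dl 1))))
    (ty : TotallyBounded (Set.range fun m => (uu S (α m) * rho (β m)) (y (dl 1)))) :
    TotallyBounded (Set.range fun m => cj (β m) ((star x * y) (dl 1))) := by
  simp only [h.uu_pi_hat hx] at tx
  simp only [h.uu_pi_hat hy] at ty
  have := tb_star_mul (a := fun m => uu S (α m) * x * lam (β m)⁻¹)
    (b := fun m => uu S (α m) * y * lam (β m)⁻¹)
    (fun m => mul_mem (mul_mem (h.uu_mem _) hx) (lam_mem _))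
    (fun m => mul_mem (mul_mem (h.uu_mem _) hy) (lam_mem _)) (C := ‖x‖ + ‖y‖) (by positivity)
    (fun m => (h.norm_uu_sandwich _ _ _).trans (le_add_of_nonneg_right (norm_nonneg _)))
    (fun m => (h.norm_uu_sandwich _ _ _).trans (le_add_of_nonneg_left (norm_nonneg _))) tx ty
  convert this using 3 with m
  rw [cj_hat (mul_mem (star_mem hx) hy), star_mul, star_mul, star_lam, h.star_uu, inv_inv]
  congr 1
  calc lam (β m) * (star x * y) * lam (β m)⁻¹
      = lam (β m) * (star x * (uu S (α m)⁻¹ * uu S (α m)) * y) * lam (β m)⁻¹ := by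
        rw [h.uu_inv_mul, mul_one]
    _ = _ := by simp only [mul_assoc]

/-- The limit produced by the compactness lemma comes from an element of the algebra. -/
theorem _root_.Pool.Agent.MP_82452b_an.H8.RT.exists_op71 (h : RT S) {Λ : Type*} (α β : Λ → G) {y : L2 G →L[ℂ] L2 G} (hy : y ∈ LG G)
    {ν : ℕ → Λ →₀ ℝ} {c : Λ → ℂ} {C : ℝ} (hν : ∀ n, IsProb (ν n)) (hc : ∀ g, ‖c g‖ ≤ C) {ζ : L2 G}
    (hζ : Tendsto (fun n => avg (ν n) fun g => c g • (uu S (α g) * rho (β g)) (y (dl 1))) atTop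
      (𝓝 ζ)) : ∃ x ∈ LG G, x (dl 1) = ζ := by
  let X : ℕ → L2 G →L[ℂ] L2 G := fun n =>
    avg (ν n) fun g => c g • (uu S (α g) * y * lam (β g)⁻¹)
  have hX : ∀ n, X n ∈ LG G := fun n =>
    avg_mem (V := (LG G).toStarSubalgebra) (ν n) fun g =>
      smul_mem_vN _ (mul_mem (mul_mem (h.uu_mem _) hy) (lam_mem _))
  have hXn : ∀ n, ‖X n‖ ≤ C * ‖y‖ := fun n => (hν n).norm_avg_le fun g => by
    rw [norm_smul]
    exact mul_le_mul (hc g) (h.norm_uu_sandwich _ _ _) (norm_nonneg _) ((norm_nonneg _).trans (hc g))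
  obtain ⟨x, hx, -, hx', -⟩ := (isSF_LG G).cb (fun _ hx => hx) hX hXn (ξ := ζ) (by
    refine hζ.congr fun n => ?_
    simp only [X, avg, h.uu_pi_hat hy, sum_apply, smul_apply])
  exact ⟨x, hx, hx'⟩

end Pool.Agent.MP_82452b_an.H71
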