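import Pool.Agent.MP_82452b_an.H71.InnerA

/-!
Module: Local innerness: the two applications of the compactness lemma
-/

namespace Pool.Agent.MP_82452b_an.H71

open Filter Topology Pool.Agent.MP_755d6b_an.H98 Pool.Agent.MP_82452b_an.H8
open scoped InnerProductSpace

/-- The statement of the compactness lemma. -/
def LemC : Prop :=
  ∀ {X Γ ι : Type} [Group Γ] [Fintype ι] (π : ι → Γ → (L2 X →L[ℂ] L2 X))
    (_ : ∀ i g k, π i (g * k) = π i g * π i k) (_ : ∀ i, π i 1 = 1)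
    (_ : ∀ i g ξ η, ⟪π i g ξ, π i g η⟫_ℂ = ⟪ξ, η⟫_ℂ) (ξ η : ι → L2 X) {δ : ℝ} (_ : 0 < δ)
    (_ : ∀ μ : Γ →₀ ℝ, IsProb μ → δ ≤ ∑ g ∈ μ.support, ∑ k ∈ μ.support,
      μ g * μ k * ∑ i, ‖⟪ξ i, π i (g⁻¹ * k) (η i)⟫_ℂ‖ ^ 2),
    ∃ (i : ι) (ζ : L2 X), ζ ≠ 0 ∧ TotallyBounded (Set.range fun g => π i g ζ) ∧
      ∃ (ν : ℕ → Γ →₀ ℝ) (c : Γ → ℂ) (C : ℝ), (∀ n, IsProb (ν n)) ∧ (∀ g, ‖c g‖ ≤ C) ∧
        Tendsto (fun n => avg (ν n) fun g => c g • π i g (η i)) atTop (𝓝 ζ)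

variable {G : Type} [Group G] {S : L2 G →L[ℂ] L2 G}

theorem compact_vec (hC : LemC) (h : RT S) {Λ ι : Type} [Group Λ] [Fintype ι] (α : Λ →* G)
    (β : ι → Λ →* G) (ξ : ι → L2 G) (y : ι → L2 G →L[ℂ] L2 G) (hy : ∀ i, y i ∈ LG G) {δ : ℝ}
    (hδ : 0 < δ)
    (H : ∀ μ : Λ →₀ ℝ, IsProb μ → δ ≤ ∑ g ∈ μ.support, ∑ k ∈ μ.support, μ g * μ k *
      ∑ i, ‖⟪ξ i, (uu S (α (g⁻¹ * k)) * rho (β i (g⁻¹ * k))) (y i (dl 1))⟫_ℂ‖ ^ 2) :
    ∃ (i : ι) (x : L2 G →L[ℂ] L2 G), x ∈ LG G ∧ x (dl 1) ≠ 0 ∧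
      TotallyBounded (Set.range fun g => (uu S (α g) * rho (β i g)) (x (dl 1))) ∧
      ∀ D : Set G, (∀ g, Supp ((uu S (α g) * rho (β i g)) (y i (dl 1))) D) → Supp (x (dl 1)) D := by
  obtain ⟨i, ζ, hζ0, hζ, ν, c, C, hν, hc, hlim⟩ := hC (fun i g => uu S (α g) * rho (β i g))
    (fun i g k => by
      rw [map_mul, map_mul, h.uu_mul, rho_mul, mul_assoc, mul_assoc, ← mul_assoc (rho (β i g)),
        mem_LG.1 (h.uu_mem (α k)), mul_assoc])
    (fun i => by rw [map_one, map_one, h.uu_one, rho_one, mul_one])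
    (fun i g ξ η => by rw [mul_apply_eq_comp, mul_apply_eq_comp, h.inner_uu, inner_rho])
    ξ (fun i => y i (dl 1)) hδ H
  obtain ⟨x, hx, rfl⟩ := h.exists_op71 α (β i) (hy i) hν hc hlim
  refine ⟨i, x, hx, hζ0, hζ, fun D hD => supp_iff_ind.2 ?_⟩
  refine tendsto_nhds_unique (((ind D).continuous.tendsto _).comp hlim) (hlim.congr fun n => ?_)
  simp only [Function.comp, map_avg, map_smul, supp_iff_ind.1 (hD _)]

theorem prob_double {Λ : Type*} {μ : Λ →₀ ℝ} (hμ : IsProb μ) (c : ℝ) :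
    ∑ g ∈ μ.support, ∑ k ∈ μ.support, μ g * μ k * c = c := by
  simp only [← Finset.sum_mul, ← Finset.mul_sum, hμ.sum, mul_one, one_mul]

theorem step1 (hC : LemC) (h : RT S) {V : Subgroup G} (hVinf : (V : Set G).Infinite)
    (hVcomm : ∀ m ∈ V, ∀ m' ∈ V, m * m' = m' * m)
    (hnwm : ∃ (z : G) (F : Finset G) (ε : ℝ), 0 < ε ∧ ∀ m ∈ V, ∃ a ∈ F, ∃ b ∈ F, ∃ e : ℕ, e < 3 ∧
      ε ≤ ‖S (dl (m * z)) (a * m ^ e * b)‖) :
    ∃ (e : ℕ) (x : L2 G →L[ℂ] L2 G), (e = 1 ∨ e = 2) ∧ x ∈ LG G ∧ x (dl 1) ≠ 0 ∧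
      TotallyBounded (Set.range fun m : V => (uu S m * rho ((m : G) ^ e)) (x (dl 1))) := by
  obtain ⟨z, F, ε, hε, hF⟩ := hnwm
  let β : F × F × Fin 3 → V →* G := fun i =>
    { toFun := fun m => (m : G) ^ (i.2.2 : ℕ)
      map_one' := by simp
      map_mul' := fun m m' => by
        rw [Subgroup.coe_mul]
        exact Commute.mul_pow (hVcomm m m.2 m' m'.2) _ }
  have hin : ∀ (a b m : G) (e : ℕ),
      ⟪dl a, (uu S m * rho (m ^ e)) ((uu S z * lam b⁻¹) (dl 1))⟫_ℂ =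
        S (dl (m * z)) (a * m ^ e * b) := by
    intro a b m e
    rw [← rho_hat (h.uu_mem z), ← mem_LG.1 (h.uu_mem m), inner_dl, mul_apply_eq_comp, rho_apply,
      ← mul_apply_eq_comp, ← mem_LG.1 (h.uu_mem m), mul_apply_eq_comp, rho_apply,
      ← mul_apply_eq_comp, ← h.uu_mul, h.uu_dl]
  obtain ⟨i, x, hx, hx0, htb, -⟩ := compact_vec hC h V.subtype β (fun i => dl (i.1 : G))
    (fun i => uu S z * lam (i.2.1 : G)⁻¹) (fun i => mul_mem (h.uu_mem z) (lam_mem _))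
    (δ := ε ^ 2) (by positivity) (fun μ hμ => by
      refine (prob_double hμ (ε ^ 2)).symm.le.trans ?_
      refine Finset.sum_le_sum fun g _ => Finset.sum_le_sum fun k _ => ?_
      refine mul_le_mul_of_nonneg_left ?_ (mul_nonneg (hμ.nonneg g) (hμ.nonneg k))
      obtain ⟨a, ha, b, hb, e, he, hm⟩ := hF _ (g⁻¹ * k).2
      refine le_trans ?_ (Finset.single_le_sum (f := fun i : F × F × Fin 3 =>
        ‖⟪dl (i.1 : G), (uu S (V.subtype (g⁻¹ * k)) * rho (β i (g⁻¹ * k)))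
          ((uu S z * lam (i.2.1 : G)⁻¹) (dl 1))⟫_ℂ‖ ^ 2) (fun _ _ => sq_nonneg _)
        (Finset.mem_univ (⟨a, ha⟩, ⟨b, hb⟩, ⟨e, he⟩)))
      refine pow_le_pow_left₀ hε.le (hm.trans (le_of_eq ?_)) 2
      exact congrArg norm (hin a b _ e).symm)
  refine ⟨i.2.2, x, ?_, hx, hx0, htb⟩
  by_contra hne
  have he0 : (i.2.2 : ℕ) = 0 := by have := i.2.2.is_lt; omega
  have htb' : TotallyBounded (Set.range fun m : V => (uu S m * x) (dl 1)) := by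
    convert htb using 3 with m
    show _ = (uu S m * rho ((m : G) ^ (i.2.2 : ℕ))) _
    rw [he0, pow_zero, rho_one, mul_one, mul_apply_eq_comp]
  have h1 : TotallyBounded (Set.range fun m : V => S ((uu S m * x * star x) (dl 1))) := by
    refine tb_pair htb' htb' (norm_nonneg x) fun m m' => ?_
    simp only [dist_eq_norm]
    rw [← map_sub, h.norm_apply, ← sub_apply, ← sub_mul, mul_apply_eq_comp]
    have h2 := isTV_LG.norm_mul_right
      (sub_mem (mul_mem (h.uu_mem m) hx) (mul_mem (h.uu_mem m') hx)) (star_mem hx)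
    rw [norm_star, sub_apply (uu S m * x) (uu S m' * x) (dl 1)] at h2
    refine h2.trans (mul_le_mul_of_nonneg_left (le_add_of_nonneg_right (norm_nonneg _))
      (norm_nonneg _))
  have h2 := tb_finite h1 (fun m : V => (m : G)) (r := ‖x (dl 1)‖ ^ 2)
    (pow_pos (norm_pos_iff.2 hx0) 2) fun m => by
      rw [← inner_dl, ← h.inner_left, ← h.uu_dl, mul_assoc, mul_apply_eq_comp, h.inner_uu,
        mul_apply_eq_comp, ← inner_star_apply, inner_self_eq_norm_sq_to_K, isTV_LG.norm_star hx]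
      simp
  exact hVinf (h2.subset fun m hm => ⟨⟨m, hm⟩, rfl⟩)

theorem step2 (h : RT S) {Γ V : Subgroup G} {κ : G →* G} (hκ : Retr κ Γ)
    (hnorm : ∀ g ∈ Γ, ∀ m ∈ V, g * m * g⁻¹ ∈ V) {e : ℕ}
    (hfc : ∀ k, {q | ∃ m ∈ V, (m ^ e)⁻¹ * k * m ^ e = q}.Finite → κ k = 1)
    {x : L2 G →L[ℂ] L2 G} (hx : x ∈ LG G)
    (htb : TotallyBounded (Set.range fun m : V => (uu S m * rho ((m : G) ^ e)) (x (dl 1))))
    {k : G} (hk : k ∈ Γ) : Supp ((star x * uu S k * x) (dl 1)) {q | κ q = k} := by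
  have hη : uu S k⁻¹ * x * lam k ∈ LG G := mul_mem (mul_mem (h.uu_mem _) hx) (lam_mem _)
  have h1 : TotallyBounded (Set.range fun m : V =>
      (uu S m * rho ((m : G) ^ e)) ((uu S k⁻¹ * x * lam k) (dl 1))) := by
    refine tb_comp htb (uu S k⁻¹ * rho k⁻¹).uniformContinuous
      (fun m : V => (⟨k * m * k⁻¹, hnorm k hk m m.2⟩ : V)) fun m => ?_
    rw [h.uu_pi_hat hη, h.uu_pi_hat hx,
      h.uu_pi_hat (mul_mem (mul_mem (h.uu_mem _) hx) (lam_mem _))]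
    have e1 : (m : G) * k⁻¹ = k⁻¹ * (k * m * k⁻¹) := by group
    have e2 : k * ((m : G) ^ e)⁻¹ = ((k * m * k⁻¹) ^ e)⁻¹ * k⁻¹⁻¹ := by rw [conj_pow]; group
    have e3 : uu S m * (uu S k⁻¹ * x * lam k) * lam ((m : G) ^ e)⁻¹ =
        uu S ((m : G) * k⁻¹) * x * lam (k * ((m : G) ^ e)⁻¹) := by
      rw [h.uu_mul, lam_mul]; simp only [mul_assoc]
    rw [e3, e1, e2, h.uu_mul, lam_mul]
    simp only [mul_assoc]
  have h2 := h.tb_cj71 (fun m : V => (m : G)) (fun m : V => (m : G) ^ e) hη hx h1 htb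
  intro p hp
  have h3 : (star (uu S k⁻¹ * x * lam k) * x) (dl 1) (k⁻¹ * p) ≠ 0 := by
    rw [star_mul, star_mul, star_lam, h.star_uu, inv_inv, mul_assoc, mul_apply_eq_comp, lam_apply,
      inv_inv, mul_inv_cancel_left]
    exact hp
  have h4 := hfc (k⁻¹ * p) ((tb_cj_finite h2 h3).subset (by
    rintro _ ⟨m, hm, rfl⟩
    exact ⟨⟨m⁻¹, inv_mem hm⟩, by simp⟩))
  rw [map_mul, map_inv, hκ.fix k hk, inv_mul_eq_one] at h4
  exact h4.symm

theorem exists_approx (ζ : L2 G) {ε : ℝ} (hε : 0 < ε) :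
    ∃ A : Finset G, ‖ζ - (∑ a ∈ A, ζ a • lam a) (dl 1)‖ < ε := by
  obtain ⟨A, hA⟩ := ((hasSum_dl ζ).eventually (Metric.ball_mem_nhds ζ hε)).exists
  refine ⟨A, ?_⟩
  rw [dist_comm, dist_eq_norm] at hA
  simpa only [sum_apply, smul_apply, lam_dl, mul_one] using hA

theorem norm_ind_coeff (h : RT S) {Γ : Subgroup G} {κ : G →* G} (hκ : Retr κ Γ) (hinv : Inv S Γ)
    {k : G} (hk : k ∈ Γ) (a b : G) :
    ‖ind {q | κ q = k} ((lam a⁻¹ * uu S k * lam b) (dl 1))‖ ≤ ‖S (dl k) (κ a * k * (κ b)⁻¹)‖ := by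
  have h1 : ‖S (dl k) (κ a * k * (κ b)⁻¹) • dl (a⁻¹ * (κ a * k * (κ b)⁻¹) * b)‖ =
      ‖S (dl k) (κ a * k * (κ b)⁻¹)‖ := by rw [norm_smul, norm_dl, mul_one]
  rw [← h1]
  refine norm_le_of_pointwise fun q => ?_
  rw [ind_apply]
  split_ifs with hq
  · rw [mul_apply_eq_comp, mul_apply_eq_comp, lam_apply, inv_inv, lam_dl, mul_one,
      apply_dl (h.uu_mem k), h.uu_dl]
    by_cases h0 : S (dl k) (a * q * b⁻¹) = 0
    · rw [h0, norm_zero]; exact norm_nonneg _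
    · have h2 := hκ.fix _ (hinv k hk _ h0)
      rw [map_mul, map_mul, map_inv, show κ q = k from hq] at h2
      rw [h2, L2.smul_apply, dl_apply, if_pos (by group), mul_one]
  · rw [norm_zero]; exact norm_nonneg _

theorem lower_bound (h : RT S) {Λ : Type*} [Group Λ] (α : Λ →* G) {x : L2 G →L[ℂ] L2 G}
    (hx : x ∈ LG G) {μ : Λ →₀ ℝ} (hμ : IsProb μ) :
    ‖x (dl 1)‖ ^ 4 ≤ ∑ g ∈ μ.support, ∑ k ∈ μ.support,
      μ g * μ k * ‖(star x * uu S (α (g⁻¹ * k)) * x) (dl 1)‖ ^ 2 := by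
  let a : Λ → L2 G →L[ℂ] L2 G := fun g => uu S (α g) * x
  have ha : ∀ g, a g ∈ LG G := fun g => mul_mem (h.uu_mem _) hx
  let P : Λ → L2 G := fun g => (a g * star (a g)) (dl 1)
  have h1 : ∀ g k, ⟪P g, P k⟫_ℂ =
      ((‖(star x * uu S (α (g⁻¹ * k)) * x) (dl 1)‖ ^ 2 : ℝ) : ℂ) := by
    intro g k
    have h2 : star x * uu S (α (g⁻¹ * k)) * x = star (a g) * a k := by
      simp only [a, star_mul, h.star_uu, map_mul, map_inv, h.uu_mul, mul_assoc]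
    rw [h2]
    have h3 := isTV_LG.tr (a k) (ha k) (star (a k) * a g * star (a g))
      (mul_mem (mul_mem (star_mem (ha k)) (ha g)) (star_mem (ha g)))
    have h4 := isTV_LG.tr (a k * star (a k)) (mul_mem (ha k) (star_mem (ha k)))
      (a g * star (a g)) (mul_mem (ha g) (star_mem (ha g)))
    have h5 : ⟪P g, P k⟫_ℂ = ⟪dl 1, (a g * star (a g)) ((a k * star (a k)) (dl 1))⟫_ℂ := by
      rw [← inner_star_apply (a g * star (a g)), star_mul, star_star]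
    have h6 : ((‖(star (a g) * a k) (dl 1)‖ ^ 2 : ℝ) : ℂ) =
        ⟪dl 1, (star (a k) * a g * star (a g)) (a k (dl 1))⟫_ℂ := by
      rw [mul_assoc, mul_apply_eq_comp (star (a k)), inner_apply_star, mul_apply_eq_comp (a g),
        ← inner_star_apply, mul_apply_eq_comp, inner_self_eq_norm_sq_to_K]
      simp
    rw [h5, h6, ← h3, ← h4]
    simp only [mul_apply_eq_comp]
  have h2 : ∀ g, ⟪dl 1, P g⟫_ℂ = ((‖x (dl 1)‖ ^ 2 : ℝ) : ℂ) := by
    intro g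
    show ⟪dl 1, a g (star (a g) (dl 1))⟫_ℂ = _
    rw [← inner_star_apply, inner_self_eq_norm_sq_to_K, isTV_LG.norm_star (ha g)]
    simp only [a, mul_apply_eq_comp, h.norm_uu_apply]
    simp
  have h3 : ⟪dl 1, avg μ P⟫_ℂ = ((‖x (dl 1)‖ ^ 2 : ℝ) : ℂ) := by
    have := map_avg (innerSL ℂ (dl (1 : G))) μ P
    simp only [innerSL_apply_apply, h2] at this
    rw [this, hμ.avg_const]
  have h4 : ‖x (dl 1)‖ ^ 2 ≤ ‖avg μ P‖ := by
    have := norm_inner_le_norm (𝕜 := ℂ) (dl (1 : G)) (avg μ P)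
    rwa [h3, norm_dl, one_mul, Complex.norm_real, Real.norm_of_nonneg (sq_nonneg _)] at this
  have h5 : ((‖avg μ P‖ ^ 2 : ℝ) : ℂ) = ((∑ g ∈ μ.support, ∑ k ∈ μ.support,
      μ g * μ k * ‖(star x * uu S (α (g⁻¹ * k)) * x) (dl 1)‖ ^ 2 : ℝ) : ℂ) := by
    have h6 : ((‖avg μ P‖ ^ 2 : ℝ) : ℂ) = ⟪avg μ P, avg μ P⟫_ℂ := by
      rw [inner_self_eq_norm_sq_to_K]; simp
    rw [h6]
    simp only [avg, sum_inner, inner_sum, inner_smul_left, inner_smul_right, h1,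
      Complex.conj_ofReal]
    rw [Finset.sum_comm (s := μ.support) (t := μ.support) (f := fun g k =>
      μ g * μ k * ‖(star x * uu S (α (g⁻¹ * k)) * x) (dl 1)‖ ^ 2), Complex.ofReal_sum]
    refine Finset.sum_congr rfl fun g _ => ?_
    rw [Finset.mul_sum, Complex.ofReal_sum]
    refine Finset.sum_congr rfl fun k _ => ?_
    rw [Complex.ofReal_mul, Complex.ofReal_mul]
    ring
  rw [← Complex.ofReal_injective h5]
  calc ‖x (dl 1)‖ ^ 4 = (‖x (dl 1)‖ ^ 2) ^ 2 := by ring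
    _ ≤ _ := pow_le_pow_left₀ (sq_nonneg _) h4 2

end Pool.Agent.MP_82452b_an.H71
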