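import Pool.Agent.MP_82452b_an.H71.InnerB

/-!
Module: Local innerness: construction of the unitary
-/

namespace Pool.Agent.MP_82452b_an.H71

open Filter Topology Pool.Agent.MP_755d6b_an.H98 Pool.Agent.MP_82452b_an.H8
open scoped InnerProductSpace

variable {G : Type} [Group G] {S : L2 G →L[ℂ] L2 G}

theorem upper_bound (h : RT S) {Γ : Subgroup G} {κ : G →* G} (hκ : Retr κ Γ) (hinv : Inv S Γ)
    {x : L2 G →L[ℂ] L2 G} (hx : x ∈ LG G)
    (hY : ∀ k ∈ Γ, Supp ((star x * uu S k * x) (dl 1)) {q | κ q = k}) {ε : ℝ} (hε : 0 < ε) :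
    ∃ (A B : Finset G) (K : ℝ), 0 < K ∧ ∀ k ∈ Γ, ‖(star x * uu S k * x) (dl 1)‖ ^ 2 ≤
      8 * ε ^ 2 + K * ∑ i : A × B, ‖S (dl k) (κ i.1 * k * (κ i.2)⁻¹)‖ ^ 2 := by
  set ζ := x (dl 1) with hζ
  obtain ⟨B, hB⟩ := exists_approx ζ (ε := ε / (‖x‖ + 1)) (by positivity)
  set x2 : L2 G →L[ℂ] L2 G := ∑ b ∈ B, ζ b • lam b with hx2
  obtain ⟨A, hA⟩ := exists_approx ζ (ε := ε / (‖x2‖ + 1)) (by positivity)
  set x1 : L2 G →L[ℂ] L2 G := ∑ a ∈ A, ζ a • lam a with hx1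
  have m1 : x1 ∈ LG G := sum_mem fun a _ => smul_mem_vN _ (lam_mem a)
  have m2 : x2 ∈ LG G := sum_mem fun a _ => smul_mem_vN _ (lam_mem a)
  have hsmall : ∀ c t : ℝ, 0 ≤ c → 0 ≤ t → t < ε / (c + 1) → c * t ≤ ε := by
    intro c t hc ht h1
    rw [lt_div_iff₀ (by positivity)] at h1
    nlinarith
  refine ⟨A, B, 2 * (∑ i : A × B, (‖ζ i.1‖ * ‖ζ i.2‖) ^ 2) + 1, by positivity, fun k hk => ?_⟩
  have e1 : (star x * uu S k * x) (dl 1) = (star x * uu S k) (ζ - x2 (dl 1)) +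
      star (x - x1) ((uu S k * x2) (dl 1)) + (star x1 * uu S k * x2) (dl 1) := by
    simp only [star_sub, mul_apply_eq_comp, map_sub, sub_apply, hζ]; abel
  have b1 : ‖(star x * uu S k) (ζ - x2 (dl 1))‖ ≤ ε := by
    rw [mul_apply_eq_comp]
    refine ((star x).le_opNorm _).trans ?_
    rw [norm_star, h.norm_uu_apply]
    exact hsmall _ _ (norm_nonneg _) (norm_nonneg _) hB
  have b2 : ‖star (x - x1) ((uu S k * x2) (dl 1))‖ ≤ ε := by
    refine (isTV_LG.norm_mul_right (star_mem (sub_mem hx m1)) (mul_mem (h.uu_mem k) m2)).trans ?_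
    rw [isTV_LG.norm_star (sub_mem hx m1), sub_apply]
    have h1 : ‖uu S k * x2‖ ≤ ‖x2‖ :=
      (norm_mul_le _ _).trans (mul_le_of_le_one_left (norm_nonneg _) (h.norm_uu k))
    exact (mul_le_mul_of_nonneg_right h1 (norm_nonneg _)).trans
      (hsmall _ _ (norm_nonneg _) (norm_nonneg _) hA)
  have e2 : star x1 * uu S k * x2 = ∑ i : A × B,
      (star (ζ i.1) * ζ i.2) • (lam (i.1 : G)⁻¹ * uu S k * lam (i.2 : G)) := by
    rw [Fintype.sum_prod_type, hx1, hx2, star_sum, Finset.sum_mul, Finset.sum_mul,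
      ← Finset.sum_coe_sort A]
    refine Finset.sum_congr rfl fun a _ => ?_
    rw [Finset.mul_sum, ← Finset.sum_coe_sort B]
    refine Finset.sum_congr rfl fun b _ => ?_
    rw [star_smul, star_lam, smul_mul_assoc, smul_mul_assoc, mul_smul_comm, smul_smul]
  have b3 : ‖ind {q | κ q = k} ((star x1 * uu S k * x2) (dl 1))‖ ≤
      ∑ i : A × B, ‖ζ i.1‖ * ‖ζ i.2‖ * ‖S (dl k) (κ i.1 * k * (κ i.2)⁻¹)‖ := by
    rw [e2, sum_apply, map_sum]
    refine (norm_sum_le _ _).trans (Finset.sum_le_sum fun i _ => ?_)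
    rw [smul_apply, map_smul, norm_smul, norm_mul, norm_star]
    exact mul_le_mul_of_nonneg_left (norm_ind_coeff h hκ hinv hk _ _) (by positivity)
  have b4 : ‖(star x * uu S k * x) (dl 1)‖ ≤ 2 * ε +
      ∑ i : A × B, ‖ζ i.1‖ * ‖ζ i.2‖ * ‖S (dl k) (κ i.1 * k * (κ i.2)⁻¹)‖ := by
    rw [← supp_iff_ind.1 (hY k hk), e1, map_add, map_add]
    refine (norm_add_le _ _).trans (add_le_add ((norm_add_le _ _).trans ?_) b3)
    have := (norm_ind_le {q | κ q = k} _).trans b1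
    have := (norm_ind_le {q | κ q = k} _).trans b2
    linarith
  have b5 := Finset.sum_mul_sq_le_sq_mul_sq (Finset.univ : Finset (A × B))
    (fun i => ‖ζ i.1‖ * ‖ζ i.2‖) (fun i => ‖S (dl k) (κ i.1 * k * (κ i.2)⁻¹)‖)
  have b6 : 0 ≤ ∑ i : A × B, ‖S (dl k) (κ i.1 * k * (κ i.2)⁻¹)‖ ^ 2 := by positivity
  have b7 := pow_le_pow_left₀ (norm_nonneg _) b4 2
  set N := ∑ i : A × B, ‖ζ i.1‖ * ‖ζ i.2‖ * ‖S (dl k) (κ i.1 * k * (κ i.2)⁻¹)‖
  nlinarith [sq_nonneg (2 * ε - N)]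

/-- Elements of `L(Γ)` with a totally bounded twisted orbit. -/
structure Good (S : L2 G →L[ℂ] L2 G) (Γ : Subgroup G) (w : L2 G →L[ℂ] L2 G) : Prop where
  mem : w ∈ LG G
  inN : InN Γ w
  tb : TotallyBounded (Set.range fun k : Γ => (uu S k * rho (k : G)) (w (dl 1)))

theorem step3 (hC : LemC) (h : RT S) {Γ : Subgroup G} {κ : G →* G} (hκ : Retr κ Γ)
    (hinv : Inv S Γ) {x : L2 G →L[ℂ] L2 G} (hx : x ∈ LG G) (hx0 : x (dl 1) ≠ 0)
    (hY : ∀ k ∈ Γ, Supp ((star x * uu S k * x) (dl 1)) {q | κ q = k}) :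
    ∃ w, Good S Γ w ∧ w (dl 1) ≠ 0 := by
  have hn : 0 < ‖x (dl 1)‖ := norm_pos_iff.2 hx0
  obtain ⟨A, B, K, hK, hAB⟩ := upper_bound h hκ hinv hx hY (ε := ‖x (dl 1)‖ ^ 2 / 4)
    (by positivity)
  have hval : ∀ k b q : G, (uu S k * rho k) (lam b (dl 1)) q = S (dl k) (q * k * b⁻¹) := by
    intro k b q
    rw [← mem_LG.1 (h.uu_mem k), mul_apply_eq_comp, rho_apply, lam_dl, mul_one,
      apply_dl (h.uu_mem k), h.uu_dl]
  obtain ⟨i, w, hw, hw0, htb, hs⟩ := compact_vec hC h (ι := A × B) Γ.subtype (fun _ => Γ.subtype)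
    (fun i => dl (κ i.1)) (fun i => lam (κ i.2)) (fun i => lam_mem _)
    (δ := ‖x (dl 1)‖ ^ 4 / (2 * K)) (by positivity) (fun μ hμ => by
      have h1 := lower_bound h Γ.subtype hx hμ
      have h2 : ∑ g ∈ μ.support, ∑ k ∈ μ.support,
          μ g * μ k * ‖(star x * uu S (Γ.subtype (g⁻¹ * k)) * x) (dl 1)‖ ^ 2 ≤
          ∑ g ∈ μ.support, ∑ k ∈ μ.support, (μ g * μ k * (8 * (‖x (dl 1)‖ ^ 2 / 4) ^ 2) +
            K * (μ g * μ k * ∑ i : A × B, ‖⟪dl (κ i.1), (uu S (Γ.subtype (g⁻¹ * k)) *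
              rho (Γ.subtype (g⁻¹ * k))) (lam (κ i.2) (dl 1))⟫_ℂ‖ ^ 2)) := by
        refine Finset.sum_le_sum fun g _ => Finset.sum_le_sum fun k _ => ?_
        simp only [inner_dl, hval]
        have h3 := mul_le_mul_of_nonneg_left (hAB _ (g⁻¹ * k).2)
          (mul_nonneg (hμ.nonneg g) (hμ.nonneg k))
        refine h3.trans (le_of_eq ?_)
        simp only [Subgroup.coe_subtype]
        ring
      simp only [Finset.sum_add_distrib, prob_double hμ, ← Finset.mul_sum _ _ K] at h2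
      rw [div_le_iff₀ (by positivity)]
      nlinarith)
  refine ⟨w, ⟨hw, inN_of_supp hw (hs _ fun g q hq => ?_), htb⟩, hw0⟩
  rw [Subgroup.coe_subtype, hval] at hq
  have h1 : q * g * (κ i.2)⁻¹ ∈ Γ := hinv g g.2 _ hq
  exact (Γ.mul_mem_cancel_right g.2).1 ((Γ.mul_mem_cancel_right (inv_mem (hκ.mem _))).1 h1)

theorem eq_smul_one {y : L2 G →L[ℂ] L2 G} (hy : y ∈ LG G) (h : ∀ q, y (dl 1) q ≠ 0 → q = 1) :
    y = y (dl 1) 1 • 1 := by
  refine sub_eq_zero.1 (isTV_LG.sep _ (sub_mem hy (smul_mem_vN _ (one_mem _))) ?_)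
  refine L2.ext (funext fun q => ?_)
  rw [sub_apply, sub_apply_L2, smul_apply, one_apply_eq_self, L2.smul_apply, dl_apply]
  split_ifs with hq
  · simp [hq]
  · have : y (dl 1) q = 0 := by
      by_contra h0
      exact hq (h q h0)
    simp [this]

theorem Good.scalar (h : RT S) {Γ : Subgroup G} (hicc : Icc Γ) {w w' : L2 G →L[ℂ] L2 G}
    (hw : Good S Γ w) (hw' : Good S Γ w') : ∃ c : ℂ, star w * w' = c • 1 := by
  refine ⟨_, eq_smul_one (mul_mem (star_mem hw.mem) hw'.mem) fun q hq => ?_⟩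
  have h1 := h.tb_cj71 (fun k : Γ => (k : G)) (fun k : Γ => (k : G)) hw.mem hw'.mem hw.tb hw'.tb
  by_contra hne
  refine hicc q ((hw.inN.star.mul hw'.inN).supp q hq) hne ((tb_cj_finite h1 hq).subset ?_)
  rintro _ ⟨g, hg, rfl⟩
  exact ⟨⟨g⁻¹, inv_mem hg⟩, by simp⟩

theorem Good.smul {Γ : Subgroup G} {w : L2 G →L[ℂ] L2 G} (hw : Good S Γ w) (c : ℂ) :
    Good S Γ (c • w) :=
  ⟨smul_mem_vN c hw.mem, hw.inN.smul c, tb_comp hw.tb (uniformContinuous_const_smul c) id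
    fun m => by simp only [smul_apply, map_smul, id]⟩

theorem Good.twist (h : RT S) {Γ : Subgroup G} (hinv : Inv S Γ) {w : L2 G →L[ℂ] L2 G}
    (hw : Good S Γ w) {g : G} (hg : g ∈ Γ) : Good S Γ (uu S g * w * lam g⁻¹) := by
  have hm : uu S g * w * lam g⁻¹ ∈ LG G := mul_mem (mul_mem (h.uu_mem g) hw.mem) (lam_mem _)
  refine ⟨hm, ((((h.inN71 hinv).mul (inN_lam hg)).mul (h.inN71 hinv)).mul hw.inN).mul
    (inN_lam (inv_mem hg)), tb_comp hw.tb uniformContinuous_id (fun k : Γ => k * ⟨g, hg⟩)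
      fun k => ?_⟩
  rw [id, h.uu_pi_hat hm, h.uu_pi_hat hw.mem, Subgroup.coe_mul, h.uu_mul, mul_inv_rev, lam_mul]
  simp only [mul_assoc]

theorem mul_star_eq_one {w : L2 G →L[ℂ] L2 G} (hw : w ∈ LG G) (h1 : star w * w = 1) :
    w * star w = 1 := by
  have hp : 1 - w * star w ∈ LG G := sub_mem (one_mem _) (mul_mem hw (star_mem hw))
  have h2 : star (1 - w * star w) * (1 - w * star w) = 1 - w * star w := by
    rw [star_sub, star_one, star_mul, star_star]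
    calc (1 - w * star w) * (1 - w * star w)
        = 1 - w * star w - w * star w + w * (star w * w) * star w := by noncomm_ring
      _ = _ := by rw [h1, mul_one]; abel
  have h3 := vecState_star_mul (dl (1 : G)) (1 - w * star w) (1 - w * star w)
  rw [h2, vecState_apply, sub_apply, inner_sub_right, mul_apply_eq_comp,
    isTV_LG.tr w hw _ (star_mem hw), ← mul_apply_eq_comp, h1, sub_self, eq_comm,
    inner_self_eq_zero] at h3
  exact (sub_eq_zero.1 (isTV_LG.sep _ hp h3)).symm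

theorem step4 (h : RT S) {Γ : Subgroup G} (hinv : Inv S Γ) (hicc : Icc Γ)
    (hgen : Γ ≤ Subgroup.closure {g | g ∈ Γ ∧ g ^ 3 = 1}) {w0 : L2 G →L[ℂ] L2 G}
    (hw0 : Good S Γ w0) (hne : w0 (dl 1) ≠ 0) : InnerOn S Γ := by
  have hn : ((‖w0 (dl 1)‖ : ℝ) : ℂ) ≠ 0 := by simpa using hne
  obtain ⟨w, hw, hw1⟩ : ∃ w, Good S Γ w ∧ ‖w (dl 1)‖ = 1 := by
    refine ⟨_, hw0.smul ((‖w0 (dl 1)‖ : ℝ) : ℂ)⁻¹, ?_⟩
    rw [smul_apply, norm_smul, norm_inv, Complex.norm_real, norm_norm,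
      inv_mul_cancel₀ (norm_ne_zero_iff.2 hne)]
  have h1 : star w * w = 1 := by
    obtain ⟨c, hc⟩ := hw.scalar h hicc hw
    have h2 := vecState_star_mul (dl (1 : G)) w w
    rw [hc, vecState_apply, smul_apply, one_apply_eq_self, inner_smul_right, isTV_LG.inner_self,
      inner_self_eq_norm_sq_to_K, hw1] at h2
    rw [hc, show c = 1 by simpa using h2, one_smul]
  have h2 : w * star w = 1 := mul_star_eq_one hw.mem h1
  have hwne : w ≠ 0 := fun h0 => by simp [h0] at hw1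
  have hv : S * w * S * w ∈ LG G := mul_mem (h.mem w hw.mem) hw.mem
  have hvN : InN Γ (S * w * S * w) :=
    (((h.inN71 hinv).mul hw.inN).mul (h.inN71 hinv)).mul hw.inN
  have hiso : ∀ ξ, ‖w ξ‖ = ‖ξ‖ := fun ξ => by
    rw [norm_eq_sqrt_re_inner (𝕜 := ℂ), ← inner_apply_star, ← mul_apply_eq_comp, h1,
      one_apply_eq_self, ← norm_eq_sqrt_re_inner]
  have hv1 : ‖(S * w * S * w) (dl 1)‖ = 1 := by
    simp only [mul_apply_eq_comp, h.norm_apply, hiso, norm_dl]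
  have hχ : ∀ g ∈ Γ, ∃ c : ℂ, uu S g * w = c • (w * lam g) ∧
      cj g ((S * w * S * w) (dl 1)) = c ^ 2 • (S * w * S * w) (dl 1) := by
    intro g hg
    obtain ⟨c, hc⟩ := hw.scalar h hicc (hw.twist h hinv hg)
    have h3 : uu S g * w = c • (w * lam g) := by
      calc uu S g * w = (w * star w) * (uu S g * w * (lam g⁻¹ * lam g)) := by
            rw [h2, lam_inv_mul, one_mul, mul_one]
        _ = w * (star w * (uu S g * w * lam g⁻¹)) * lam g := by simp only [mul_assoc]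
        _ = _ := by rw [hc, mul_smul_comm, mul_one, smul_mul_assoc]
    refine ⟨c, h3, ?_⟩
    have h4 : lam g * (S * w * S * w) = c ^ 2 • (S * w * S * w * lam g) := by
      calc lam g * (S * w * S * w) = (S * S) * lam g * (S * w * S * w) := by rw [h.sq, one_mul]
        _ = S * (uu S g * w) * S * w := by simp only [uu, mul_assoc]
        _ = c • (S * w * (S * S) * lam g * S * w) := by
            rw [h3, h.sq]; simp only [mul_smul_comm, smul_mul_assoc, mul_assoc, one_mul]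
        _ = c • (S * w * S * (uu S g * w)) := by simp only [uu, mul_assoc]
        _ = _ := by
            rw [h3, mul_smul_comm, smul_smul, sq]; simp only [mul_assoc]
    rw [cj_hat hv, h4, smul_mul_assoc, mul_assoc _ (lam g), lam_mul_inv, mul_one, smul_apply]
  have hv2 : ∀ q, (S * w * S * w) (dl 1) q ≠ 0 → q = 1 := by
    intro q hq
    by_contra hq1
    refine hicc q (hvN.supp q hq) hq1 ((finite_le_norm ((S * w * S * w) (dl 1))
      (norm_pos_iff.2 hq)).subset ?_)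
    rintro _ ⟨g, hg, rfl⟩
    obtain ⟨c, -, hc⟩ := hχ g hg
    have h3 := congrArg norm hc
    rw [norm_cj, norm_smul, hv1, mul_one] at h3
    rw [Set.mem_ofPred_eq, ← cj_apply, hc, L2.smul_apply, norm_mul, ← h3, one_mul]
  have hv3 : (S * w * S * w) (dl 1) 1 ≠ 0 := by
    intro h0
    rw [eq_smul_one hv hv2, h0, zero_smul] at hv1
    simp at hv1
  have hgood : ∀ g ∈ Γ, g ^ 3 = 1 → uu S g * w = w * lam g := by
    intro g hg hg3
    obtain ⟨c, hc, hc'⟩ := hχ g hg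
    have h3 := congrArg (fun ξ : L2 G => ξ 1) hc'
    simp only [cj_apply, mul_one, inv_mul_cancel, L2.smul_apply] at h3
    have h4 : c ^ 2 = 1 := mul_right_cancel₀ hv3 (by rw [← h3, one_mul])
    have h5 : w = c ^ 3 • w := by
      have h6 : g * (g * g) = 1 := by rw [← hg3, pow_three]
      calc w = uu S (g * (g * g)) * w := by rw [h6, h.uu_one, one_mul]
        _ = uu S g * (uu S g * (uu S g * w)) := by simp only [h.uu_mul, mul_assoc]
        _ = c ^ 3 • (w * (lam g * (lam g * lam g))) := by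
            rw [hc, mul_smul_comm, ← mul_assoc, hc, mul_smul_comm, smul_mul_assoc, mul_smul_comm,
              ← mul_assoc, ← mul_assoc, hc]
            simp only [smul_mul_assoc, smul_smul, mul_assoc, pow_three]
        _ = _ := by rw [← lam_mul, ← lam_mul, h6, lam_one, mul_one]
    have h6 : c = 1 := by
      rw [pow_succ, h4, one_mul] at h5
      have h7 : (c - 1) • w = 0 := by rw [sub_smul, one_smul, ← h5, sub_self]
      exact sub_eq_zero.1 ((smul_eq_zero.1 h7).resolve_right hwne)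
    rw [hc, h6, one_smul]
  refine ⟨w, hw.mem, h1, h2, hw.inN.supp, fun g hg => ?_⟩
  show uu S g * w = w * lam g
  refine Subgroup.closure_induction (p := fun g _ => uu S g * w = w * lam g)
    (fun g hg => hgood g hg.1 hg.2) ?_ (fun g k _ _ hg hk => ?_) (fun g _ hg => ?_) (hgen hg)
  · rw [h.uu_one, lam_one, one_mul, mul_one]
  · rw [h.uu_mul, lam_mul, mul_assoc, hk, ← mul_assoc, hg, mul_assoc]
  · calc uu S g⁻¹ * w = uu S g⁻¹ * (w * lam g) * lam g⁻¹ := by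
          rw [mul_assoc, mul_assoc, lam_mul_inv, mul_one]
      _ = _ := by rw [← hg, ← mul_assoc, h.uu_inv_mul, one_mul]

theorem innerOn_of (hC : LemC) (h : RT S) {Γ V : Subgroup G} {κ : G →* G} (hκ : Retr κ Γ)
    (hinv : Inv S Γ)
    (hicc : Icc Γ) (hgen : Γ ≤ Subgroup.closure {g | g ∈ Γ ∧ g ^ 3 = 1})
    (hVinf : (V : Set G).Infinite) (hVcomm : ∀ m ∈ V, ∀ m' ∈ V, m * m' = m' * m)
    (hnorm : ∀ g ∈ Γ, ∀ m ∈ V, g * m * g⁻¹ ∈ V)
    (hfc : ∀ e : ℕ, e = 1 ∨ e = 2 → ∀ k, {q | ∃ m ∈ V, (m ^ e)⁻¹ * k * m ^ e = q}.Finite → κ k = 1)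
    (hnwm : ∃ (z : G) (F : Finset G) (ε : ℝ), 0 < ε ∧ ∀ m ∈ V, ∃ a ∈ F, ∃ b ∈ F, ∃ e : ℕ, e < 3 ∧
      ε ≤ ‖S (dl (m * z)) (a * m ^ e * b)‖) :
    InnerOn S Γ := by
  obtain ⟨e, x, he, hx, hx0, htb⟩ := step1 hC h hVinf hVcomm hnwm
  obtain ⟨w, hw, hw0⟩ := step3 hC h hκ hinv hx hx0
    fun k hk => step2 h hκ hnorm (hfc e he) hx htb hk
  exact step4 h hinv hicc hgen hw hw0

end Pool.Agent.MP_82452b_an.H71
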